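import Pool.Agent.H99.FR.Final
import Pool.Graph.R_seed8.Y986.FB.Final
import Pool.Graph.R_seed8.W852.FG.Pos
import Pool.Graph.R_seed8.W782.FG.Split
import Pool.Graph.R_seed8.W782.FG.Chain
import Pool.Graph.R_seed8.W782.FG.GF
import Pool.Graph.R_seed8.W782.FG.Mk
import Pool.Graph.R_seed8.W782.FG.Ind
import Pool.Graph.R_seed8.W363.FG.MomX
import Pool.Graph.R_seed8.W591.FG.W
import Pool.Graph.R_seed8.W591.FG.Wpos
import Pool.Graph.R_seed8.W591.FG.Key
import Pool.Graph.R_seed8.W578.FG.Pt
import Pool.Graph.R_seed8.W636.FG.MomP

/-!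
# Frog model on Galton-Watson trees: arbitrary rules of motion, correlated sleeping particles

The particles of the frog model follow arbitrary rules of motion: the next step of a particle may
depend on the vertex where the particle was sleeping, on the whole past of its walk and on a new
random number. The only requirement is that a step to the parent is at most `b` times as probable
as a step to any of the children, where `b` is smaller than the mean number of children (and at the
root every child has probability at least `δ`). The numbers of sleeping particles may be correlated;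
the means of the products over distinct vertices are bounded by the powers of `lam`.
-/

set_option autoImplicit false

namespace Pool.Agent.Results.MP_ac6ae5_pr.ArbitraryRules

open MeasureTheory ProbabilityTheory
open FrogGW (Env Survive GW)
open Pool.Agent.H99.FR (Rule Adm FM Visits MomentBound biased)
open scoped ENNReal NNReal

/-- The frog model of the question on the tree of `Z` is transient: the particles perform simple
random walks, the numbers of sleeping particles are independent with Poisson law of mean `lam`, and
almost surely only finitely many active particles visit the root. -/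
def Transient (Z : Env) (lam : ℝ≥0) : Prop :=
  ∀ᵐ ω ∂(FM (Measure.infinitePi fun _ : List ℕ => poissonMeasure lam)),
    {q : List ℕ × ℕ | ∃ k, (q, k) ∈ Visits (fun _ => biased 1 Z) ω}.Finite

/-- Let `p` be an offspring law with mean in `(1, ∞]`.
(1) Survival has positive probability.
(2) For every `0 < b < mean` there is `lam > 0` such that on almost every surviving tree there is a
finite `C` with the following property: whatever the rules of motion of the particles (for each
vertex an arbitrary rule, admissible for `b` and `δ > 0`) and whatever the joint law of the numbers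
of sleeping particles (with product moments bounded by the powers of `lam`), the expected total
number of visits to the root by active particles is at most `C / δ`; in particular this number is
almost surely finite.
(3) The `b`-biased walk is admissible for `b` and `1 / Z []`, and independent numbers of means at
most `lam` have product moments bounded by the powers of `lam`.
(4) (The question.) There is `lam > 0` such that on almost every surviving tree the frog model with
simple random walks and independent Poisson numbers of any mean `lam' ≤ lam` is transient. -/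
theorem result (p : Measure ℕ) [IsProbabilityMeasure p] (hp : 1 < ∫⁻ k, (k : ℝ≥0∞) ∂p) :
    (MeasurableSet Survive ∧ GW p Survive ≠ 0) ∧
    (∀ b : ℝ≥0, 0 < b → (b : ℝ≥0∞) < ∫⁻ k, (k : ℝ≥0∞) ∂p → ∃ lam : ℝ≥0, 0 < lam ∧
      ∀ᵐ Z ∂(ProbabilityTheory.cond (GW p) Survive), ∃ C : ℝ≥0, ∀ δ : ℝ≥0, 0 < δ →
        ∀ R : List ℕ → Rule, (∀ v, Adm Z b δ (R v)) →
        ∀ (μ : Measure (List ℕ → ℕ)) [IsProbabilityMeasure μ], MomentBound lam μ →
          ∫⁻ ω, ((Visits R ω).encard : ℝ≥0∞) ∂(FM μ) ≤ C / δ ∧
          ∀ᵐ ω ∂(FM μ), (Visits R ω).Finite) ∧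
    ((∀ (b : ℝ≥0) (Z : Env), 0 < b → 1 ≤ Z [] → Adm Z b ((Z [] : ℝ≥0)⁻¹) (biased b Z)) ∧
      ∀ (lam : ℝ≥0) (η : List ℕ → Measure ℕ) [∀ v, IsProbabilityMeasure (η v)],
        (∀ v, ∫⁻ k, (k : ℝ≥0∞) ∂(η v) ≤ lam) → MomentBound lam (Measure.infinitePi η)) ∧
    ∃ lam : ℝ≥0, 0 < lam ∧ ∀ᵐ Z ∂(ProbabilityTheory.cond (GW p) Survive),
      ∀ lam' : ℝ≥0, lam' ≤ lam → Transient Z lam' := by
  have hTr : FrogGW.TaskTree := Pool.Agent.W782.FG.tree
  have hW : FrogGW.TaskW := FrogGW.W591.taskW
  have hWpos : FrogGW.TaskWpos := FrogGW.W591.taskWpos hTr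
  have hGF : FrogGW.TaskGF := Pool.Agent.W782.FG.gf
  have hZero : FrogGW.TaskZero := FrogGW.W591.taskZero hTr hW
  have hE : FrogGW.TaskExt := FrogGW.W591.taskExt hTr hW hWpos hGF hZero
  have hMk : FrogGW.TaskMk := Pool.Agent.W782.FG.mkMain
  have hKap : FrogGW.TaskKappa := Pool.Agent.W782.FG.kappa hMk hGF
  have hInd : FrogGW.TaskInd := Pool.Agent.W782.FG.ind
  have hMomP : FrogGW.TaskMomP :=
    Pool.Agent.W636.FG.momP hMk FrogGW.W578.ptA FrogGW.W578.ptB hInd
  have hMomX : FrogGW.TaskMomX := Pool.Agent.W363.FG.momX hInd
  have key := Pool.Agent.H99.FR.final hTr Pool.Agent.W782.FG.seq hW hE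
    (FrogB.moment hTr hW hWpos hGF hZero hKap hInd hMomP hMomX) p hp
  have hm : MeasurableSet Survive := by
    obtain ⟨lam, _, hm, _⟩ := key 1 one_pos (by simpa using hp)
    exact hm
  refine ⟨⟨hm, FrogGW.survive_pos hW hWpos p hp⟩, ?_,
    ⟨fun b Z hb hZ => Pool.Agent.H99.FR.adm_biased b hb Z hZ,
      fun lam η _ h => Pool.Agent.H99.FR.moment_indep lam η h⟩, ?_⟩
  · intro b hb hbp
    obtain ⟨lam, h0, _, h⟩ := key b hb hbp
    refine ⟨lam, h0, ?_⟩
    unfold ProbabilityTheory.cond
    refine Measure.ae_smul_measure ((ae_restrict_iff' hm).2 ?_) _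
    filter_upwards [h] with Z hZ hS
    exact (hZ hS).2
  · obtain ⟨lam, h0, _, h⟩ := key 1 one_pos (by simpa using hp)
    refine ⟨lam, h0, ?_⟩
    unfold ProbabilityTheory.cond
    refine Measure.ae_smul_measure ((ae_restrict_iff' hm).2 ?_) _
    filter_upwards [h] with Z hZ hS lam' hlam'
    obtain ⟨hZ1, C, hC⟩ := hZ hS
    have hδ : (0 : ℝ≥0) < ((Z [] : ℝ≥0))⁻¹ := by
      have : (0 : ℝ≥0) < (Z [] : ℝ≥0) := by exact_mod_cast hZ1
      exact inv_pos.2 this
    have h1 := (hC _ hδ (fun _ => biased 1 Z)
      (fun _ => Pool.Agent.H99.FR.adm_biased 1 one_pos Z hZ1)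
      (Measure.infinitePi fun _ : List ℕ => poissonMeasure lam')
      (Pool.Agent.H99.FR.moment_indep lam (fun _ => poissonMeasure lam') fun _ => by
        rw [Pool.Agent.W782.FG.lintegral_poisson]
        exact_mod_cast hlam')).2
    unfold Transient
    filter_upwards [h1] with ω hω
    refine (hω.image Prod.fst).subset ?_
    rintro q ⟨k, hk⟩
    exact ⟨(q, k), hk, rfl⟩

end Pool.Agent.Results.MP_ac6ae5_pr.ArbitraryRules
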